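import Mathlib

/-!
# Co: polynomials with coefficients in `K(T)`
-/

set_option autoImplicit false

namespace Pool.Agent.H82.KG

variable {K Ω ι : Type*} [Field K] [Field Ω] [Algebra K Ω]

/-- the coefficients of `p` are in `K(T)` -/
def Co (K : Type*) {Ω ι : Type*} [Field K] [Field Ω] [Algebra K Ω] (T : Set Ω)
    (p : MvPolynomial ι Ω) : Prop := ∀ μ, p.coeff μ ∈ IntermediateField.adjoin K T

theorem Co.mono {T T' : Set Ω} {p : MvPolynomial ι Ω} (h : Co K T p) (hT : T ⊆ T') : Co K T' p :=
  fun μ => IntermediateField.adjoin.mono K T T' hT (h μ)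

theorem Co.zero (T : Set Ω) : Co K T (0 : MvPolynomial ι Ω) := fun μ => by
  rw [MvPolynomial.coeff_zero]
  exact zero_mem _

theorem Co.add {T : Set Ω} {p q : MvPolynomial ι Ω} (hp : Co K T p) (hq : Co K T q) :
    Co K T (p + q) := fun μ => by
  rw [MvPolynomial.coeff_add]
  exact add_mem (hp μ) (hq μ)

theorem Co.neg {T : Set Ω} {p : MvPolynomial ι Ω} (hp : Co K T p) : Co K T (-p) := fun μ => by
  rw [MvPolynomial.coeff_neg]
  exact neg_mem (hp μ)

theorem Co.sub {T : Set Ω} {p q : MvPolynomial ι Ω} (hp : Co K T p) (hq : Co K T q) :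
    Co K T (p - q) := by
  rw [sub_eq_add_neg]
  exact hp.add hq.neg

theorem Co.mul {T : Set Ω} {p q : MvPolynomial ι Ω} (hp : Co K T p) (hq : Co K T q) :
    Co K T (p * q) := fun μ => by
  classical
  rw [MvPolynomial.coeff_mul]
  exact sum_mem fun x _ => mul_mem (hp _) (hq _)

theorem Co.C {T : Set Ω} {x : Ω} (hx : x ∈ IntermediateField.adjoin K T) :
    Co K T (MvPolynomial.C x : MvPolynomial ι Ω) := fun μ => by
  classical
  rw [MvPolynomial.coeff_C]
  split_ifs
  · exact hx
  · exact zero_mem _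

theorem Co.C_mem {T : Set Ω} {x : Ω} (hx : x ∈ T) :
    Co K T (MvPolynomial.C x : MvPolynomial ι Ω) :=
  Co.C (IntermediateField.subset_adjoin K T hx)

theorem Co.base (T : Set Ω) (a : K) : Co K T (MvPolynomial.C (algebraMap K Ω a) : MvPolynomial ι Ω) :=
  Co.C (IntermediateField.algebraMap_mem _ a)

theorem Co.one (T : Set Ω) : Co K T (1 : MvPolynomial ι Ω) := by
  have h := Co.base (ι := ι) (K := K) T 1
  rwa [map_one, map_one] at h

theorem Co.X (T : Set Ω) (i : ι) : Co K T (MvPolynomial.X i : MvPolynomial ι Ω) := fun μ => by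
  classical
  rw [MvPolynomial.coeff_X]
  split_ifs
  · exact one_mem _
  · exact zero_mem _

theorem Co.pow {T : Set Ω} {p : MvPolynomial ι Ω} (hp : Co K T p) (k : ℕ) : Co K T (p ^ k) := by
  induction k with
  | zero => rw [pow_zero]; exact Co.one T
  | succ k ih => rw [pow_succ]; exact ih.mul hp

theorem Co.sum {T : Set Ω} {κ : Type*} (s : Finset κ) {f : κ → MvPolynomial ι Ω}
    (h : ∀ i ∈ s, Co K T (f i)) : Co K T (∑ i ∈ s, f i) := by
  classical
  induction s using Finset.induction_on with
  | empty => rw [Finset.sum_empty]; exact Co.zero T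
  | insert a s ha ih =>
    rw [Finset.sum_insert ha]
    exact (h a (Finset.mem_insert_self a s)).add (ih fun i hi => h i (Finset.mem_insert_of_mem hi))

theorem Co.prod {T : Set Ω} {κ : Type*} (s : Finset κ) {f : κ → MvPolynomial ι Ω}
    (h : ∀ i ∈ s, Co K T (f i)) : Co K T (∏ i ∈ s, f i) := by
  classical
  induction s using Finset.induction_on with
  | empty => rw [Finset.prod_empty]; exact Co.one T
  | insert a s ha ih =>
    rw [Finset.prod_insert ha]
    exact (h a (Finset.mem_insert_self a s)).mul (ih fun i hi => h i (Finset.mem_insert_of_mem hi))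

theorem Co.aeval {T : Set Ω} {p : MvPolynomial ι Ω} (hp : Co K T p) (f : Polynomial K) :
    Co K T (Polynomial.aeval p f) := by
  rw [Polynomial.aeval_eq_sum_range]
  refine Co.sum _ fun i _ => ?_
  have h : f.coeff i • p ^ i = MvPolynomial.C (algebraMap K Ω (f.coeff i)) * p ^ i := by
    rw [← MvPolynomial.algebraMap_eq, ← IsScalarTower.algebraMap_apply, Algebra.smul_def]
  rw [h]
  exact (Co.base T _).mul (hp.pow i)

theorem Co.det {T : Set Ω} {κ : Type*} [Fintype κ] [DecidableEq κ]
    {M : Matrix κ κ (MvPolynomial ι Ω)} (h : ∀ i j, Co K T (M i j)) : Co K T M.det := by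
  rw [Matrix.det_apply]
  refine Co.sum _ fun σ _ => ?_
  rcases Int.units_eq_one_or (Equiv.Perm.sign σ) with hs | hs
  · rw [hs, one_smul]
    exact Co.prod _ fun i _ => h _ _
  · rw [hs, Units.neg_smul, one_smul]
    exact (Co.prod _ fun i _ => h _ _).neg

end Pool.Agent.H82.KG
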